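import Pool.Agent.S4Gen.Ricci

set_option autoImplicit false

namespace Pool.Agent.S4Gen

open Set Matrix Filter Topology Pool.Agent.H8S4

/-- The matrix function `X` has the derivative `X1` at `t` (entry by entry). -/
def MD (X : ℝ → Matrix (Fin 3) (Fin 3) ℝ) (X1 : Matrix (Fin 3) (Fin 3) ℝ) (t : ℝ) : Prop :=
  ∀ i j, HasDerivAt (fun r => X r i j) (X1 i j) t

variable {X Y : ℝ → Matrix (Fin 3) (Fin 3) ℝ} {X1 Y1 : Matrix (Fin 3) (Fin 3) ℝ} {t : ℝ}

theorem MD.mul (hX : MD X X1 t) (hY : MD Y Y1 t) :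
    MD (fun r => X r * Y r) (X1 * Y t + X t * Y1) t := by
  intro i j
  simp only [Matrix.mul_apply, Matrix.add_apply]
  rw [← Finset.sum_add_distrib]
  exact HasDerivAt.fun_sum fun m _ => (hX i m).mul (hY m j)

theorem MD.add (hX : MD X X1 t) (hY : MD Y Y1 t) : MD (fun r => X r + Y r) (X1 + Y1) t :=
  fun i j => (hX i j).add (hY i j)

theorem MD.smul {f : ℝ → ℝ} {f1 : ℝ} (hf : HasDerivAt f f1 t) (hX : MD X X1 t) :
    MD (fun r => f r • X r) (f1 • X t + f t • X1) t := by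
  intro i j
  simp only [Matrix.smul_apply, Matrix.add_apply, smul_eq_mul]
  exact hf.mul (hX i j)

theorem MD.const (C : Matrix (Fin 3) (Fin 3) ℝ) (t : ℝ) : MD (fun _ => C) 0 t :=
  fun i j => hasDerivAt_const _ _

theorem MD.congr (hX : MD X X1 t) (h : ∀ᶠ r in 𝓝 t, Y r = X r) : MD Y X1 t := by
  intro i j
  refine (hX i j).congr_of_eventuallyEq ?_
  filter_upwards [h] with r hr
  rw [hr]

theorem MD.unique (hX : MD X X1 t) (hY : MD X Y1 t) : X1 = Y1 := by
  ext i j
  exact (hX i j).unique (hY i j)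

theorem MD.md_eq (hX : MD X X1 t) : md X t = X1 := by
  ext i j
  exact (hX i j).deriv

theorem MD.transpose (hX : MD X X1 t) : MD (fun r => (X r)ᵀ) X1ᵀ t := fun i j => hX j i

theorem MD.symm (hX : MD X X1 t) (h : ∀ᶠ r in 𝓝 t, (X r).IsSymm) : X1.IsSymm := by
  have h1 : MD X X1ᵀ t := hX.transpose.congr (by
    filter_upwards [h] with r hr
    exact hr.eq.symm)
  exact (hX.unique h1).symm

theorem MD.diff_det (hX : MD X X1 t) : DifferentiableAt ℝ (fun r => (X r).det) t := by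
  have h : ∀ i j, DifferentiableAt ℝ (fun r => X r i j) t := fun i j => (hX i j).differentiableAt
  simp only [Matrix.det_fin_three]
  fun_prop

theorem MD.diff_adj (hX : MD X X1 t) (i j : Fin 3) :
    DifferentiableAt ℝ (fun r => (X r).adjugate i j) t := by
  have h : ∀ i j, DifferentiableAt ℝ (fun r => X r i j) t := fun i j => (hX i j).differentiableAt
  simp only [Matrix.adjugate_fin_three]
  fin_cases i <;> fin_cases j <;> simp <;> fun_prop

theorem MD.ev_det (hX : MD X X1 t) (h0 : (X t).det ≠ 0) : ∀ᶠ r in 𝓝 t, (X r).det ≠ 0 :=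
  hX.diff_det.continuousAt.eventually_ne h0

theorem MD.exists_inv (hX : MD X X1 t) (h0 : (X t).det ≠ 0) :
    MD (fun r => (X r)⁻¹) (md (fun r => (X r)⁻¹) t) t := by
  intro i j
  have h : DifferentiableAt ℝ (fun r => (X r)⁻¹ i j) t := by
    have h1 : (fun r => (X r)⁻¹ i j) = fun r => ((X r).det)⁻¹ * (X r).adjugate i j := by
      funext r
      rw [Matrix.inv_def, Ring.inverse_eq_inv', Matrix.smul_apply, smul_eq_mul]
    rw [h1]
    exact (hX.diff_det.inv h0).mul (hX.diff_adj i j)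
  exact h.hasDerivAt

theorem MD.inv (hX : MD X X1 t) (h0 : (X t).det ≠ 0) :
    MD (fun r => (X r)⁻¹) (-((X t)⁻¹ * X1 * (X t)⁻¹)) t := by
  have h1 := hX.exists_inv h0
  have h2 := hX.mul h1
  have h3 : MD (fun r => X r * (X r)⁻¹) 0 t := (MD.const 1 t).congr (by
    filter_upwards [hX.ev_det h0] with r hr
    exact Matrix.mul_nonsing_inv _ (isUnit_iff_ne_zero.2 hr))
  have h4 := h2.unique h3
  have h5 : (X t)⁻¹ * X t = 1 := Matrix.nonsing_inv_mul _ (isUnit_iff_ne_zero.2 h0)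
  have h6 : md (fun r => (X r)⁻¹) t = -((X t)⁻¹ * X1 * (X t)⁻¹) := by
    have h7 : X t * md (fun r => (X r)⁻¹) t = -(X1 * (X t)⁻¹) := by
      rw [eq_neg_iff_add_eq_zero, add_comm]
      exact h4
    calc md (fun r => (X r)⁻¹) t
        = (X t)⁻¹ * X t * md (fun r => (X r)⁻¹) t := by rw [h5, one_mul]
      _ = -((X t)⁻¹ * X1 * (X t)⁻¹) := by rw [mul_assoc, h7, mul_neg, mul_assoc]
  rw [← h6]
  exact h1

theorem cof (C : Matrix (Fin 3) (Fin 3) ℝ) (i j s : Fin 3) :
    ∑ p, ∑ q, C p i * C q j * eps p q s = ∑ m, eps i j m * C.adjugate m s := by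
  simp only [Fin.sum_univ_three]
  rw [Matrix.adjugate_fin_three]
  fin_cases i <;> fin_cases j <;> fin_cases s <;> simp [eps] <;> ring

/-- The brackets of the frame in terms of `W = B' B⁻¹` and `N = B^2 / det B`. -/
theorem brk_eq {B : ℝ → Matrix (Fin 3) (Fin 3) ℝ} {H : Matrix (Fin 3) (Fin 3) ℝ} {t : ℝ}
    (hB : MD B H t) (hs : (B t).IsSymm) (h0 : (B t).det ≠ 0) :
    brk B t = cW (H * (B t)⁻¹) (NN (B t)) := by
  have hu : IsUnit (B t).det := isUnit_iff_ne_zero.2 h0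
  have hmd : ∀ i k, ∑ p, md (fun r => (B r)⁻¹) t p i * B t k p = -(H * (B t)⁻¹) k i := by
    intro i k
    have h1 : ∑ p, md (fun r => (B r)⁻¹) t p i * B t k p =
        (B t * md (fun r => (B r)⁻¹) t) k i := by
      rw [Matrix.mul_apply]
      exact Finset.sum_congr rfl fun p _ => mul_comm _ _
    rw [h1, (hB.inv h0).md_eq, mul_neg, ← mul_assoc, ← mul_assoc, Matrix.mul_nonsing_inv _ hu,
      one_mul, Matrix.neg_apply]
  funext i j k
  rcases i with _ | i <;> rcases j with _ | j <;> rcases k with _ | k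
  · rfl
  · rfl
  · rfl
  · exact hmd j k
  · rfl
  · show -∑ p, md (fun r => (B r)⁻¹) t p i * B t k p = _
    rw [hmd i k, neg_neg]
    rfl
  · rfl
  · show ∑ p, ∑ q, ∑ r, (B t)⁻¹ p i * (B t)⁻¹ q j * eps p q r * B t k r =
      ∑ m, eps i j m * (NN (B t)) m k
    have e1 : ∑ p, ∑ q, ∑ r, (B t)⁻¹ p i * (B t)⁻¹ q j * eps p q r * B t k r =
        ∑ r, (∑ p, ∑ q, (B t)⁻¹ p i * (B t)⁻¹ q j * eps p q r) * B t k r := by
      simp only [Fin.sum_univ_three]
      ring
    rw [e1]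
    simp only [cof]
    have e2 : ((B t)⁻¹).adjugate = ((B t).det)⁻¹ • B t := by
      have h2 : ((B t)⁻¹).adjugate = ((B t)⁻¹).det • ((B t)⁻¹)⁻¹ := by
        have hd : ((B t)⁻¹).det ≠ 0 := by
          rw [Matrix.det_nonsing_inv, Ring.inverse_eq_inv']
          exact inv_ne_zero h0
        rw [Matrix.inv_def ((B t)⁻¹), Ring.inverse_eq_inv', smul_smul, mul_inv_cancel₀ hd, one_smul]
      rw [h2, Matrix.nonsing_inv_nonsing_inv _ hu, Matrix.det_nonsing_inv, Ring.inverse_eq_inv']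
    rw [e2]
    have hs' : ∀ r, B t k r = B t r k := fun r => hs.apply r k
    unfold NN
    simp only [Matrix.smul_apply, Matrix.mul_apply, smul_eq_mul, Fin.sum_univ_three, hs']
    ring

end Pool.Agent.S4Gen
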