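import Pool.Agent.S4Gen.Def

/-! Commutation from the momentum constraint (package C, helper94) -/

set_option autoImplicit false

namespace Pool.Agent.S4Gen

open Set Matrix Pool.Agent.H8S4

/-- A positive definite matrix anticommutes only with zero. -/
theorem eq_zero_of_anticomm {B X : Matrix (Fin 3) (Fin 3) ℝ} (hB : B.PosDef)
    (h : B * X + X * B = 0) : X = 0 := by
  have e : (Xᴴ * B * X).trace + (X * B * Xᴴ).trace = 0 := by
    have h1 : (Xᴴ * (B * X + X * B)).trace = 0 := by rw [h, mul_zero, trace_zero]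
    rw [mul_add, trace_add, Matrix.trace_mul_comm Xᴴ (X * B), ← mul_assoc] at h1
    exact h1
  have p1 := (hB.posSemidef.conjTranspose_mul_mul_same X).trace_nonneg
  have p2 := (hB.posSemidef.mul_mul_conjTranspose_same X).trace_nonneg
  have e1 : (Xᴴ * B * X).trace = 0 := by linarith
  have e2 : ∀ j ∈ (Finset.univ : Finset (Fin 3)), (Xᴴ * B * X) j j = 0 :=
    (Finset.sum_eq_zero_iff_of_nonneg fun j _ =>
      (hB.posSemidef.conjTranspose_mul_mul_same X).diag_nonneg).1 e1
  ext i j
  by_contra hij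
  have hne : (fun k => X k j) ≠ 0 := fun h0 => hij (congrFun h0 i)
  have hpos := hB.dotProduct_mulVec_pos hne
  have e3 : (Xᴴ * B * X) j j = star (fun k => X k j) ⬝ᵥ (B *ᵥ fun k => X k j) := by
    rw [mul_assoc]
    rfl
  rw [← e3, e2 j (Finset.mem_univ j)] at hpos
  exact lt_irrefl _ hpos

/-- If the symmetric part of `H B⁻¹` commutes with `B^2` then `H` commutes with `B`. -/
theorem commute_of {B H : Matrix (Fin 3) (Fin 3) ℝ} (hB : B.PosDef) (hH : H.IsSymm)
    (h : (H * B⁻¹ + B⁻¹ * H) * (B * B) = (B * B) * (H * B⁻¹ + B⁻¹ * H)) : B * H = H * B := by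
  have hu : IsUnit B.det := (Matrix.isUnit_iff_isUnit_det B).1 hB.isUnit
  have i1 : B⁻¹ * B = 1 := Matrix.nonsing_inv_mul B hu
  have i2 : B * B⁻¹ = 1 := Matrix.mul_nonsing_inv B hu
  have e1 : B * ((H * B⁻¹ + B⁻¹ * H) * (B * B)) * B = B * H * (B * B) + H * (B * B * B) := by
    calc B * ((H * B⁻¹ + B⁻¹ * H) * (B * B)) * B =
        B * H * (B⁻¹ * B) * B * B + (B * B⁻¹) * H * (B * B * B) := by noncomm_ring
      _ = _ := by rw [i1, i2]; noncomm_ring
  have e2 : B * ((B * B) * (H * B⁻¹ + B⁻¹ * H)) * B = B * B * B * H + B * B * H * B := by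
    calc B * ((B * B) * (H * B⁻¹ + B⁻¹ * H)) * B =
        B * B * B * H * (B⁻¹ * B) + B * B * (B * B⁻¹) * H * B := by noncomm_ring
      _ = _ := by rw [i1, i2]; noncomm_ring
  have e3 : B * (B * B * H - H * B * B) + (B * B * H - H * B * B) * B = 0 := by
    have h1 := congrArg (fun M => B * M * B) h
    rw [e1, e2] at h1
    have h2 : B * (B * B * H - H * B * B) + (B * B * H - H * B * B) * B =
        (B * B * B * H + B * B * H * B) - (B * H * (B * B) + H * (B * B * B)) := by noncomm_ring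
    rw [h2, h1, sub_self]
  have e4 := eq_zero_of_anticomm hB e3
  have e5 : B * (B * H - H * B) + (B * H - H * B) * B = 0 := by
    rw [← e4]
    noncomm_ring
  exact sub_eq_zero.1 (eq_zero_of_anticomm hB e5)

end Pool.Agent.S4Gen
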