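import Pool.Agent.S4Gen.Def

set_option autoImplicit false

namespace Pool.Agent.S4Gen

open Set Matrix Pool.Agent.H8S4

variable {R B H M N : Matrix (Fin 3) (Fin 3) ℝ}

theorem conj_mul (hR : Rᵀ * R = 1) : (R * M * Rᵀ) * (R * N * Rᵀ) = R * (M * N) * Rᵀ := by
  calc (R * M * Rᵀ) * (R * N * Rᵀ) = R * M * (Rᵀ * R) * N * Rᵀ := by simp only [mul_assoc]
    _ = R * (M * N) * Rᵀ := by rw [hR, mul_one, mul_assoc R M N]

theorem conj_one (hR : R * Rᵀ = 1) : R * (1 : Matrix (Fin 3) (Fin 3) ℝ) * Rᵀ = 1 := by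
  rw [mul_one, hR]

theorem conj_trace (hR : Rᵀ * R = 1) : (R * M * Rᵀ).trace = M.trace := by
  rw [Matrix.trace_mul_comm, ← mul_assoc, hR, one_mul]

theorem conj_inv (hR : R * Rᵀ = 1) (hR' : Rᵀ * R = 1) (h0 : B.det ≠ 0) :
    (R * B * Rᵀ)⁻¹ = R * B⁻¹ * Rᵀ := by
  apply Matrix.inv_eq_right_inv
  rw [conj_mul hR', Matrix.mul_nonsing_inv _ (isUnit_iff_ne_zero.2 h0), conj_one hR]

theorem conj_det (hR : R * Rᵀ = 1) : (R * B * Rᵀ).det = B.det := by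
  have h1 : R.det * Rᵀ.det = 1 := by rw [← Matrix.det_mul, hR, Matrix.det_one]
  rw [Matrix.det_mul, Matrix.det_mul, mul_right_comm, h1, one_mul]

theorem conj_smul (c : ℝ) : c • (R * M * Rᵀ) = R * (c • M) * Rᵀ := by
  rw [Matrix.mul_smul, Matrix.smul_mul]

theorem conj_add : R * M * Rᵀ + R * N * Rᵀ = R * (M + N) * Rᵀ := by
  rw [mul_add, add_mul]

theorem conj_sub : R * M * Rᵀ - R * N * Rᵀ = R * (M - N) * Rᵀ := by
  rw [mul_sub, sub_mul]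

theorem NN_conj (hR : R * Rᵀ = 1) (hR' : Rᵀ * R = 1) : NN (R * B * Rᵀ) = R * NN B * Rᵀ := by
  unfold NN
  rw [conj_mul hR', conj_det hR, conj_smul]

theorem Rc_conj (hR : R * Rᵀ = 1) (hR' : Rᵀ * R = 1) (h0 : B.det ≠ 0) :
    Rc (R * B * Rᵀ) = R * Rc B * Rᵀ := by
  unfold Rc
  rw [NN_conj hR hR', conj_mul hR', conj_trace hR', conj_inv hR hR' h0, conj_mul hR']
  nth_rewrite 1 [← conj_one hR]
  rw [conj_smul, conj_sub, conj_add]

theorem W_conj (hR : R * Rᵀ = 1) (hR' : Rᵀ * R = 1) (h0 : B.det ≠ 0) :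
    (R * H * Rᵀ) * (R * B * Rᵀ)⁻¹ = R * (H * B⁻¹) * Rᵀ := by
  rw [conj_inv hR hR' h0, conj_mul hR']

end Pool.Agent.S4Gen
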