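import Pool.Agent.S4Gen.Main

set_option autoImplicit false

namespace Pool.Agent.S4Gen

open Set Matrix Filter Topology Pool.Agent.H8S4

theorem smul_one_posDef {c : ℝ} (hc : 0 < c) : (c • (1 : Matrix (Fin 3) (Fin 3) ℝ)).PosDef :=
  Matrix.PosDef.one.smul hc

theorem closesUp_round (ρ : ℝ) (hρ : 0 < ρ) :
    ClosesUp (fun t => (ρ / 2 * Real.sin (t / ρ)) • (1 : Matrix (Fin 3) (Fin 3) ℝ))
      (ρ * Real.pi) := by
  have hpi := Real.pi_pos
  have d0 : ∀ r : ℝ, HasDerivAt (fun r => r / ρ) (1 / ρ) r := fun r => (hasDerivAt_id r).div_const ρ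
  have g0 : ∀ t, HasDerivAt (fun t => ρ / 2 * Real.sin (t / ρ)) (1 / 2 * Real.cos (t / ρ)) t :=
    fun t => by
      refine (((d0 t).sin).const_mul (ρ / 2)).congr_deriv ?_
      field_simp
  have hT : ρ * Real.pi / ρ = Real.pi := by field_simp
  have hmd : ∀ t, md (fun t => (ρ / 2 * Real.sin (t / ρ)) • (1 : Matrix (Fin 3) (Fin 3) ℝ)) t =
      (1 / 2 * Real.cos (t / ρ)) • (1 : Matrix (Fin 3) (Fin 3) ℝ) := by
    intro t
    have h1 := MD.smul (g0 t) (MD.const (1 : Matrix (Fin 3) (Fin 3) ℝ) t)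
    rw [h1.md_eq, smul_zero, add_zero]
  refine ⟨by positivity, fun i j => ?_, fun t ht => ?_, ⟨?_, ?_⟩, ⟨?_, ?_⟩⟩
  · simp only [Matrix.smul_apply, smul_eq_mul]
    fun_prop
  · have hθ0 : 0 < t / ρ := div_pos ht.1 hρ
    have hθ1 : t / ρ < Real.pi := by
      rw [div_lt_iff₀ hρ]
      have := ht.2
      linarith
    exact smul_one_posDef (mul_pos (by positivity) (Real.sin_pos_of_pos_of_lt_pi hθ0 hθ1))
  · show (ρ / 2 * Real.sin (0 / ρ)) • (1 : Matrix (Fin 3) (Fin 3) ℝ) = 0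
    simp
  · rw [hmd]
    simp
  · show (ρ / 2 * Real.sin (ρ * Real.pi / ρ)) • (1 : Matrix (Fin 3) (Fin 3) ℝ) = 0
    rw [hT]
    simp
  · rw [hmd, hT, Real.cos_pi]
    congr 1
    ring

theorem R0_scalar (w n w1 n1 : ℝ) (j k : Option (Fin 3)) :
    R0 (cW (w • (1 : Matrix (Fin 3) (Fin 3) ℝ)) (n • (1 : Matrix (Fin 3) (Fin 3) ℝ)))
      (cW (w1 • (1 : Matrix (Fin 3) (Fin 3) ℝ)) (n1 • (1 : Matrix (Fin 3) (Fin 3) ℝ))) j k =
      if j = k then (if j = none then -3 * w1 - 3 * w ^ 2 else -w1 - 3 * w ^ 2 + n ^ 2 / 2)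
      else 0 := by
  rcases j with _ | j <;> rcases k with _ | k
  · simp only [R0, Fintype.sum_option, Fin.sum_univ_three, g0, cW, d0, Matrix.smul_apply,
      Matrix.one_apply, smul_eq_mul]
    simp [eps]
    ring
  · rw [if_neg (by simp)]
    simp only [R0, Fintype.sum_option, Fin.sum_univ_three, g0, cW, d0, Matrix.smul_apply,
      Matrix.one_apply, smul_eq_mul]
    fin_cases k <;> simp [eps]
  · rw [if_neg (by simp)]
    simp only [R0, Fintype.sum_option, Fin.sum_univ_three, g0, cW, d0, Matrix.smul_apply,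
      Matrix.one_apply, smul_eq_mul]
    fin_cases j <;> simp [eps]
  · simp only [R0, Fintype.sum_option, Fin.sum_univ_three, g0, cW, d0, Matrix.smul_apply,
      Matrix.one_apply, smul_eq_mul]
    fin_cases j <;> fin_cases k <;> simp [eps] <;> ring

/-- The round metrics are Einstein. -/
theorem conv (B : ℝ → Matrix (Fin 3) (Fin 3) ℝ) (T ρ : ℝ) (hρ : 0 < ρ) (hT : T = ρ * Real.pi)
    (h : ∀ t ∈ Icc 0 T, B t = (ρ / 2 * Real.sin (t / ρ)) • (1 : Matrix (Fin 3) (Fin 3) ℝ)) :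
    IsEinstein B T (3 / ρ ^ 2) := by
  intro t ht j k
  have d0 : ∀ r : ℝ, HasDerivAt (fun r => r / ρ) (1 / ρ) r := fun r => (hasDerivAt_id r).div_const ρ
  have g0 : ∀ t, HasDerivAt (fun t => ρ / 2 * Real.sin (t / ρ)) (1 / 2 * Real.cos (t / ρ)) t :=
    fun t => by
      refine (((d0 t).sin).const_mul (ρ / 2)).congr_deriv ?_
      field_simp
  have hsin : ∀ r ∈ Ioo 0 T, 0 < Real.sin (r / ρ) := by
    intro r hr
    have hθ0 : 0 < r / ρ := div_pos hr.1 hρ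
    have hθ1 : r / ρ < Real.pi := by
      rw [div_lt_iff₀ hρ]
      have := hr.2
      rw [hT] at this
      linarith
    exact Real.sin_pos_of_pos_of_lt_pi hθ0 hθ1
  have hev : ∀ t ∈ Ioo 0 T, ∀ᶠ r in 𝓝 t, r ∈ Ioo 0 T := fun t ht => isOpen_Ioo.mem_nhds ht
  have hB : ∀ r ∈ Ioo 0 T, MD B ((1 / 2 * Real.cos (r / ρ)) • (1 : Matrix (Fin 3) (Fin 3) ℝ)) r := by
    intro r hr
    have h1 := MD.smul (g0 r) (MD.const (1 : Matrix (Fin 3) (Fin 3) ℝ) r)
    rw [smul_zero, add_zero] at h1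
    exact h1.congr ((hev r hr).mono fun s hs => h s ⟨hs.1.le, hs.2.le⟩)
  have hdetB : ∀ r ∈ Ioo 0 T, (B r).det ≠ 0 := by
    intro r hr
    rw [h r ⟨hr.1.le, hr.2.le⟩]
    exact (smul_one_posDef (mul_pos (by positivity) (hsin r hr))).det_pos.ne'
  have hsB : ∀ r ∈ Ioo 0 T, (B r).IsSymm := by
    intro r hr
    rw [h r ⟨hr.1.le, hr.2.le⟩]
    exact symm_of_posDef (smul_one_posDef (mul_pos (by positivity) (hsin r hr)))
  have inv1 : ∀ c : ℝ, c ≠ 0 → (c • (1 : Matrix (Fin 3) (Fin 3) ℝ))⁻¹ = c⁻¹ • 1 := by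
    intro c hc
    apply Matrix.inv_eq_right_inv
    rw [Matrix.smul_mul, Matrix.mul_smul, smul_smul, mul_inv_cancel₀ hc, one_smul, one_mul]
  -- the brackets
  have hbrk : ∀ᶠ r in 𝓝 t, brk B r = cW
      ((Real.cos (r / ρ) / (ρ * Real.sin (r / ρ))) • (1 : Matrix (Fin 3) (Fin 3) ℝ))
      ((2 / (ρ * Real.sin (r / ρ))) • (1 : Matrix (Fin 3) (Fin 3) ℝ)) := by
    filter_upwards [hev t ht] with r hr
    have hs := hsin r hr
    have hne : ρ / 2 * Real.sin (r / ρ) ≠ 0 := by positivity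
    rw [brk_eq (hB r hr) (hsB r hr) (hdetB r hr)]
    have e1 : ((1 / 2 * Real.cos (r / ρ)) • (1 : Matrix (Fin 3) (Fin 3) ℝ)) * (B r)⁻¹ =
        (Real.cos (r / ρ) / (ρ * Real.sin (r / ρ))) • (1 : Matrix (Fin 3) (Fin 3) ℝ) := by
      rw [h r ⟨hr.1.le, hr.2.le⟩, inv1 _ hne, Matrix.smul_mul, one_mul, smul_smul]
      congr 1
      field_simp
    have e2 : NN (B r) = (2 / (ρ * Real.sin (r / ρ))) • (1 : Matrix (Fin 3) (Fin 3) ℝ) := by
      unfold NN
      rw [h r ⟨hr.1.le, hr.2.le⟩, Matrix.smul_mul, Matrix.mul_smul, smul_smul, one_mul, smul_smul,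
        Matrix.det_smul, Matrix.det_one, Fintype.card_fin]
      congr 1
      field_simp
    rw [e1, e2]
  have hs := hsin t ht
  have hsc : Real.sin (t / ρ) ^ 2 + Real.cos (t / ρ) ^ 2 = 1 := Real.sin_sq_add_cos_sq _
  have ds : HasDerivAt (fun r => ρ * Real.sin (r / ρ)) (Real.cos (t / ρ)) t := by
    refine (((d0 t).sin).const_mul ρ).congr_deriv ?_
    field_simp
  have dc : HasDerivAt (fun r => Real.cos (r / ρ)) (-(Real.sin (t / ρ) / ρ)) t := by
    refine ((d0 t).cos).congr_deriv ?_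
    ring
  have hne : ρ * Real.sin (t / ρ) ≠ 0 := by positivity
  have dW := MD.smul (dc.div ds hne) (MD.const (1 : Matrix (Fin 3) (Fin 3) ℝ) t)
  have dN := MD.smul ((hasDerivAt_const t (2 : ℝ)).div ds hne)
    (MD.const (1 : Matrix (Fin 3) (Fin 3) ℝ) t)
  rw [smul_zero, add_zero] at dW dN
  have hr := ric_eq hbrk dW dN j k
  rw [hr]
  rw [R0_scalar]
  by_cases hjk : j = k
  swap
  · rw [if_neg hjk, if_neg hjk]
  rw [if_pos hjk, if_pos hjk]
  have hc2 : Real.cos (t / ρ) ^ 2 = 1 - Real.sin (t / ρ) ^ 2 := by linarith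
  split_ifs
  · field_simp
    rw [hc2]
    ring
  · field_simp
    rw [hc2]
    ring

end Pool.Agent.S4Gen
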