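import Pool.Agent.H8S4.Def

/-!
`SU(2)`-invariant metrics `dt^2 + sum_i (sum_j B i j sigma_j)^2` on `(0,T) x SU(2)`: definitions.
-/

set_option autoImplicit false

namespace Pool.Agent.S4Gen

open Set Matrix Pool.Agent.H8S4

noncomputable section

/-- The derivative of a matrix function, entry by entry. -/
def md (B : ℝ → Matrix (Fin 3) (Fin 3) ℝ) (t : ℝ) : Matrix (Fin 3) (Fin 3) ℝ :=
  Matrix.of fun i j => deriv (fun r => B r i j) t

/-- `brk B t i j k` is the `e_k` component of the bracket `[e_i, e_j]` at time `t` for the frame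
`e_none = d/dt`, `e_(some i) = sum_p (B t)⁻¹ p i E_p`, which is dual to `dt`, `sum_p B i p sigma_p`.
Here `E_p` is left invariant on `SU(2)` with `[E_i, E_j] = sum_k eps i j k E_k`, and `sigma_p` is
the dual basis. -/
def brk (B : ℝ → Matrix (Fin 3) (Fin 3) ℝ) (t : ℝ) :
    Option (Fin 3) → Option (Fin 3) → Option (Fin 3) → ℝ
  | none, some j, some k => ∑ p, md (fun r => (B r)⁻¹) t p j * B t k p
  | some i, none, some k => -∑ p, md (fun r => (B r)⁻¹) t p i * B t k p
  | some i, some j, some k => ∑ p, ∑ q, ∑ r, (B t)⁻¹ p i * (B t)⁻¹ q j * eps p q r * B t k r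
  | _, _, _ => 0

/-- The Levi-Civita connection of an orthonormal frame with the brackets `c` (Koszul formula):
the inner product of `nabla_(e_i) e_j` and `e_k`. -/
def Gam (c : ℝ → Option (Fin 3) → Option (Fin 3) → Option (Fin 3) → ℝ) (t : ℝ)
    (i j k : Option (Fin 3)) : ℝ :=
  (c t i j k - c t j k i + c t k i j) / 2

/-- The inner product of `R(e_i, e_j) e_k` and `e_l`. -/
def Riem (c : ℝ → Option (Fin 3) → Option (Fin 3) → Option (Fin 3) → ℝ) (t : ℝ)
    (i j k l : Option (Fin 3)) : ℝ :=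
  dd i (fun r => Gam c r j k l) t - dd j (fun r => Gam c r i k l) t +
    ∑ m, (Gam c t j k m * Gam c t i m l - Gam c t i k m * Gam c t j m l
      - c t i j m * Gam c t m k l)

/-- Ricci curvature in the orthonormal frame. -/
def Ric (c : ℝ → Option (Fin 3) → Option (Fin 3) → Option (Fin 3) → ℝ) (t : ℝ)
    (j k : Option (Fin 3)) : ℝ :=
  ∑ i, Riem c t i j k i

/-- The metric `dt^2 + sum_i (sum_j B i j sigma_j)^2` on `(0,T) x SU(2)` is Einstein with constant
`L`. -/
def IsEinstein (B : ℝ → Matrix (Fin 3) (Fin 3) ℝ) (T L : ℝ) : Prop :=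
  ∀ t ∈ Ioo 0 T, ∀ j k, Ric (brk B) t j k = if j = k then L else 0

/-- The metric `dt^2 + sum_i (sum_j B i j sigma_j)^2` closes up to a metric on the 4-sphere by two
fixed points, one at each end. -/
structure ClosesUp (B : ℝ → Matrix (Fin 3) (Fin 3) ℝ) (T : ℝ) : Prop where
  pos_T : 0 < T
  smooth : ∀ i j, ContDiff ℝ 2 fun t => B t i j
  pos : ∀ t ∈ Ioo 0 T, (B t).PosDef
  left : B 0 = 0 ∧ md B 0 = (1 / 2 : ℝ) • 1
  right : B T = 0 ∧ md B T = (-(1 / 2) : ℝ) • 1

/-- `N = B^2 / det B`: the brackets of the spatial frame. -/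
def NN (B : Matrix (Fin 3) (Fin 3) ℝ) : Matrix (Fin 3) (Fin 3) ℝ := B.det⁻¹ • (B * B)

/-- The Ricci curvature of the orbit. -/
def Rc (B : Matrix (Fin 3) (Fin 3) ℝ) : Matrix (Fin 3) (Fin 3) ℝ :=
  NN B * NN B - (1 / 2 * (NN B * NN B).trace) • (1 : Matrix (Fin 3) (Fin 3) ℝ) + B⁻¹ * B⁻¹

/-- The right hand side of the second order equation `B'' = F B B'`. -/
def F (L : ℝ) (B H : Matrix (Fin 3) (Fin 3) ℝ) : Matrix (Fin 3) (Fin 3) ℝ :=
  ((H * B⁻¹) * (H * B⁻¹) - (H * B⁻¹).trace • (H * B⁻¹) + Rc B - L • (1 : Matrix (Fin 3) (Fin 3) ℝ))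
    * B

end

end Pool.Agent.S4Gen
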