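import Mathlib

/-! # Simultaneous diagonalisation of two commuting symmetric matrices (helper95) -/

set_option autoImplicit false

namespace Pool.Agent.S4Gen

open Matrix Module Module.End

/-- Two commuting symmetric operators have a common orthonormal eigenbasis. -/
theorem exists_joint_basis {E : Type*} [NormedAddCommGroup E] [InnerProductSpace ℝ E]
    [FiniteDimensional ℝ E] {n : ℕ} (hn : finrank ℝ E = n) {A B : E →ₗ[ℝ] E} (hA : A.IsSymmetric)
    (hB : B.IsSymmetric) (hAB : Commute A B) :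
    ∃ b : OrthonormalBasis (Fin n) ℝ E, ∀ i, ∃ l m : ℝ, A (b i) = l • b i ∧ B (b i) = m • b i := by
  classical
  let ι := Eigenvalues B × Eigenvalues A
  let g : ι → ℝ × ℝ := fun i => ((i.1 : ℝ), (i.2 : ℝ))
  have hg : Function.Injective g := by
    rintro ⟨⟨a, ha⟩, ⟨b, hb⟩⟩ ⟨⟨c, hc⟩, ⟨d, hd⟩⟩ h
    have h1 : a = c := congrArg Prod.fst h
    have h2 : b = d := congrArg Prod.snd h
    subst h1 h2
    rfl
  have hO := (LinearMap.IsSymmetric.orthogonalFamily_eigenspace_inf_eigenspace hA hB).comp hg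
  have hI : DirectSum.IsInternal
      (fun i : ι => (eigenspace A (g i).2 ⊓ eigenspace B (g i).1 : Submodule ℝ E)) := by
    apply hO.isInternal_iff.mpr
    rw [Submodule.orthogonal_eq_bot_iff, eq_top_iff,
      ← LinearMap.IsSymmetric.iSup_iSup_eigenspace_inf_eigenspace_eq_top_of_commute hA hB hAB]
    refine iSup_le fun α => iSup_le fun γ => ?_
    by_cases h : eigenspace A α ⊓ eigenspace B γ = ⊥
    · rw [h]
      exact bot_le
    · have h1 : HasEigenvalue A α := fun h0 => h (by
        have h0' : eigenspace A α = ⊥ := h0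
        rw [h0', bot_inf_eq])
      have h2 : HasEigenvalue B γ := fun h0 => h (by
        have h0' : eigenspace B γ = ⊥ := h0
        rw [h0', inf_bot_eq])
      exact le_iSup (fun i : ι => (eigenspace A (g i).2 ⊓ eigenspace B (g i).1 : Submodule ℝ E))
        (⟨γ, h2⟩, ⟨α, h1⟩)
  refine ⟨hI.subordinateOrthonormalBasis hn hO, fun i => ?_⟩
  have h := hI.subordinateOrthonormalBasis_subordinate hn i hO
  exact ⟨_, _, mem_eigenspace_iff.1 h.1, mem_eigenspace_iff.1 h.2⟩

/-- Two commuting symmetric matrices have a common orthonormal eigenbasis. -/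
theorem exists_diag {B H : Matrix (Fin 3) (Fin 3) ℝ} (hB : B.IsSymm) (hH : H.IsSymm)
    (hc : B * H = H * B) :
    ∃ R : Matrix (Fin 3) (Fin 3) ℝ, R * Rᵀ = 1 ∧ Rᵀ * R = 1 ∧
      (∀ i j, i ≠ j → (R * B * Rᵀ) i j = 0) ∧ ∀ i j, i ≠ j → (R * H * Rᵀ) i j = 0 := by
  have sB : (toEuclideanLin B).IsSymmetric := isSymmetric_toEuclideanLin_iff.2 (by
    rw [IsHermitian, conjTranspose_eq_transpose_of_trivial]
    exact hB)
  have sH : (toEuclideanLin H).IsSymmetric := isSymmetric_toEuclideanLin_iff.2 (by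
    rw [IsHermitian, conjTranspose_eq_transpose_of_trivial]
    exact hH)
  have hcm : Commute (toEuclideanLin B) (toEuclideanLin H) := by
    apply LinearMap.ext
    intro x
    change WithLp.toLp 2 (B *ᵥ (H *ᵥ WithLp.ofLp x)) = WithLp.toLp 2 (H *ᵥ (B *ᵥ WithLp.ofLp x))
    rw [mulVec_mulVec, mulVec_mulVec, hc]
  obtain ⟨b, hb⟩ := exists_joint_basis (n := 3) (by simp) sB sH hcm
  have hon : ∀ i j, ∑ k, b i k * b j k = if i = j then 1 else 0 := by
    intro i j
    have h := (orthonormal_iff_ite.1 b.orthonormal) i j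
    rw [PiLp.inner_apply] at h
    rw [← h]
    refine Finset.sum_congr rfl fun k _ => ?_
    simp [mul_comm]
  let R : Matrix (Fin 3) (Fin 3) ℝ := Matrix.of fun i k => b i k
  have h1 : R * Rᵀ = 1 := by
    ext i j
    rw [Matrix.mul_apply, Matrix.one_apply]
    exact hon i j
  have key : ∀ (C : Matrix (Fin 3) (Fin 3) ℝ),
      (∀ i, ∃ l : ℝ, toEuclideanLin C (b i) = l • b i) →
      ∀ i j, i ≠ j → (R * C * Rᵀ) i j = 0 := by
    intro C hC i j hij
    obtain ⟨l, hl⟩ := hC j
    have hl' : C *ᵥ (fun k => b j k) = fun k => l * b j k := by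
      funext k
      have := congrArg (fun x : EuclideanSpace ℝ (Fin 3) => x k) hl
      exact this
    rw [Matrix.mul_assoc, Matrix.mul_apply]
    have h2 : ∀ k, (C * Rᵀ) k j = l * b j k := by
      intro k
      have := congrFun hl' k
      exact this
    simp only [h2]
    have h3 : ∑ x, R i x * (l * b j x) = l * ∑ x, b i x * b j x := by
      rw [Finset.mul_sum]
      refine Finset.sum_congr rfl fun x _ => ?_
      change b i x * (l * b j x) = _
      ring
    rw [h3, hon, if_neg hij, mul_zero]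
  refine ⟨R, h1, mul_eq_one_comm.1 h1, key B fun i => ?_, key H fun i => ?_⟩
  · obtain ⟨l, m, h, _⟩ := hb i
    exact ⟨l, h⟩
  · obtain ⟨l, m, _, h⟩ := hb i
    exact ⟨m, h⟩

end Pool.Agent.S4Gen
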