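import Pool.Agent.S4Gen.U
import Pool.Agent.S4Gen.Diag

/-!
The equation `B'' = F B B'` is invariant under constant rotations, and a solution with commuting
symmetric data is diagonal in a constant orthonormal basis.
-/

set_option autoImplicit false

namespace Pool.Agent.S4Gen

open Set Matrix Pool.Agent.H8S4

/-- The equation is invariant under constant rotations. -/
theorem F_conj {R B H : Matrix (Fin 3) (Fin 3) ℝ} (L : ℝ) (hR : R * Rᵀ = 1) (hR' : Rᵀ * R = 1)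
    (h0 : B.det ≠ 0) :
    F L (R * B * Rᵀ) (R * H * Rᵀ) = R * F L B H * Rᵀ := by
  have hmul : ∀ X Y : Matrix (Fin 3) (Fin 3) ℝ,
      (R * X * Rᵀ) * (R * Y * Rᵀ) = R * (X * Y) * Rᵀ := by
    intro X Y
    calc (R * X * Rᵀ) * (R * Y * Rᵀ) = R * X * (Rᵀ * R) * Y * Rᵀ := by
          simp only [Matrix.mul_assoc]
      _ = R * (X * Y) * Rᵀ := by rw [hR', Matrix.mul_one]; simp only [Matrix.mul_assoc]
  have htr : ∀ X : Matrix (Fin 3) (Fin 3) ℝ, (R * X * Rᵀ).trace = X.trace := by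
    intro X
    rw [Matrix.trace_mul_comm, ← Matrix.mul_assoc, hR', Matrix.one_mul]
  have hdet : (R * B * Rᵀ).det = B.det := by
    have h1 : R.det * Rᵀ.det = 1 := by rw [← Matrix.det_mul, hR, Matrix.det_one]
    rw [Matrix.det_mul, Matrix.det_mul]
    calc R.det * B.det * Rᵀ.det = B.det * (R.det * Rᵀ.det) := by ring
      _ = B.det := by rw [h1, mul_one]
  have hinv : (R * B * Rᵀ)⁻¹ = R * B⁻¹ * Rᵀ := by
    apply Matrix.inv_eq_right_inv
    rw [hmul, Matrix.mul_nonsing_inv _ (isUnit_iff_ne_zero.2 h0), Matrix.mul_one, hR]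
  have hone : (1 : Matrix (Fin 3) (Fin 3) ℝ) = R * 1 * Rᵀ := by rw [Matrix.mul_one, hR]
  have hsm : ∀ (c : ℝ) (X : Matrix (Fin 3) (Fin 3) ℝ),
      c • (R * X * Rᵀ) = R * (c • X) * Rᵀ := by
    intro c X
    rw [Matrix.mul_smul, Matrix.smul_mul]
  have hadd : ∀ X Y : Matrix (Fin 3) (Fin 3) ℝ,
      (R * X * Rᵀ) + (R * Y * Rᵀ) = R * (X + Y) * Rᵀ := by
    intro X Y
    rw [Matrix.mul_add, Matrix.add_mul]
  have hsub : ∀ X Y : Matrix (Fin 3) (Fin 3) ℝ,
      (R * X * Rᵀ) - (R * Y * Rᵀ) = R * (X - Y) * Rᵀ := by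
    intro X Y
    rw [Matrix.mul_sub, Matrix.sub_mul]
  have hNN : NN (R * B * Rᵀ) = R * NN B * Rᵀ := by
    unfold NN
    rw [hdet, hmul, hsm]
  have hc1 : ∀ c : ℝ, c • (1 : Matrix (Fin 3) (Fin 3) ℝ) = R * (c • 1) * Rᵀ := by
    intro c
    rw [← hsm, ← hone]
  have hRc : Rc (R * B * Rᵀ) = R * Rc B * Rᵀ := by
    unfold Rc
    rw [hNN, hinv, hmul, htr, hmul, hc1, hsub, hadd]
    rw [← hc1]
  unfold F
  rw [hRc, hinv, hmul, htr, hmul, hsm, hc1 L, hsub, hadd, hsub, hmul, ← hc1 L]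

/-- The entries of a conjugated matrix function have the conjugated derivatives. -/
theorem conj_deriv {B : ℝ → Matrix (Fin 3) (Fin 3) ℝ} {B1 : Matrix (Fin 3) (Fin 3) ℝ} {t : ℝ}
    (R S : Matrix (Fin 3) (Fin 3) ℝ) (h : ∀ i j, HasDerivAt (fun r => B r i j) (B1 i j) t)
    (i j : Fin 3) : HasDerivAt (fun r => (R * B r * S) i j) ((R * B1 * S) i j) t := by
  simp only [Matrix.mul_apply]
  refine HasDerivAt.fun_sum fun k _ => HasDerivAt.mul_const ?_ _
  exact HasDerivAt.fun_sum fun l _ => (h l k).const_mul _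

/-- A solution with commuting symmetric data is diagonal in a constant orthonormal basis. -/
theorem diag_sol {T L : ℝ} (hT : 0 < T) {B B1 : ℝ → Matrix (Fin 3) (Fin 3) ℝ}
    (h0 : ∀ t ∈ Ioo 0 T, (B t).det ≠ 0)
    (hs : ∀ t ∈ Ioo 0 T, (B t).IsSymm) (hs1 : ∀ t ∈ Ioo 0 T, (B1 t).IsSymm)
    (hc : ∀ t ∈ Ioo 0 T, B t * B1 t = B1 t * B t)
    (hB : ∀ t ∈ Ioo 0 T, ∀ i j, HasDerivAt (fun r => B r i j) (B1 t i j) t)
    (hB1 : ∀ t ∈ Ioo 0 T, ∀ i j, HasDerivAt (fun r => B1 r i j) (F L (B t) (B1 t) i j) t) :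
    ∃ R : Matrix (Fin 3) (Fin 3) ℝ, R * Rᵀ = 1 ∧ Rᵀ * R = 1 ∧
      ∀ t ∈ Ioo 0 T, ∀ i j, i ≠ j → (R * B t * Rᵀ) i j = 0 := by
  have hm : T / 2 ∈ Ioo 0 T := ⟨by linarith, by linarith⟩
  obtain ⟨R, hR, hR', hd, hd1⟩ := exists_diag (hs _ hm) (hs1 _ hm) (hc _ hm)
  refine ⟨R, hR, hR', ?_⟩
  intro t ht i j hij
  -- conjugation by an orthogonal matrix preserves the determinant
  have hdet : ∀ Q : Matrix (Fin 3) (Fin 3) ℝ, Q * Qᵀ = 1 → ∀ X : Matrix (Fin 3) (Fin 3) ℝ,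
      (Q * X * Qᵀ).det = X.det := by
    intro Q hQ X
    have h1 : Q.det * Qᵀ.det = 1 := by rw [← Matrix.det_mul, hQ, Matrix.det_one]
    rw [Matrix.det_mul, Matrix.det_mul]
    calc Q.det * X.det * Qᵀ.det = X.det * (Q.det * Qᵀ.det) := by ring
      _ = X.det := by rw [h1, mul_one]
  -- the sign matrix
  set d : Fin 3 → ℝ := fun k => if k = i then 1 else -1 with hd_def
  have hdd : ∀ k, d k * d k = 1 := by
    intro k
    simp only [hd_def]
    split_ifs <;> norm_num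
  set D : Matrix (Fin 3) (Fin 3) ℝ := diagonal d with hD_def
  have hDt : Dᵀ = D := by rw [hD_def, diagonal_transpose]
  have hDD : D * D = 1 := by
    rw [hD_def, diagonal_mul_diagonal, ← diagonal_one]
    congr 1
    funext k
    exact hdd k
  have hDDt : D * Dᵀ = 1 := by rw [hDt, hDD]
  have hDtD : Dᵀ * D = 1 := by rw [hDt, hDD]
  have hent : ∀ (X : Matrix (Fin 3) (Fin 3) ℝ) (p q : Fin 3),
      (D * X * Dᵀ) p q = d p * X p q * d q := by
    intro X p q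
    rw [hDt, hD_def, mul_diagonal, diagonal_mul]
  have hfix : ∀ X : Matrix (Fin 3) (Fin 3) ℝ, (∀ p q, p ≠ q → X p q = 0) →
      X = D * X * Dᵀ := by
    intro X hX
    ext p q
    rw [hent]
    by_cases hpq : p = q
    · subst hpq
      calc X p p = (d p * d p) * X p p := by rw [hdd, one_mul]
        _ = d p * X p p * d p := by ring
    · rw [hX p q hpq]; ring
  have key := unique_sol (L := L) (X := fun r => R * B r * Rᵀ) (X1 := fun r => R * B1 r * Rᵀ)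
    (Y := fun r => D * (R * B r * Rᵀ) * Dᵀ) (Y1 := fun r => D * (R * B1 r * Rᵀ) * Dᵀ)
    (T := T)
    (fun r hr => by rw [hdet R hR]; exact h0 r hr)
    (fun r hr p q => conj_deriv R Rᵀ (hB r hr) p q)
    (fun r hr p q => by
      show HasDerivAt (fun r => (R * B1 r * Rᵀ) p q) (F L (R * B r * Rᵀ) (R * B1 r * Rᵀ) p q) r
      rw [F_conj L hR hR' (h0 r hr)]
      exact conj_deriv R Rᵀ (hB1 r hr) p q)
    (fun r hr => by rw [hdet D hDDt, hdet R hR]; exact h0 r hr)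
    (fun r hr p q => conj_deriv D Dᵀ (B := fun r => R * B r * Rᵀ)
      (fun p q => conj_deriv R Rᵀ (hB r hr) p q) p q)
    (fun r hr p q => by
      show HasDerivAt (fun r => (D * (R * B1 r * Rᵀ) * Dᵀ) p q)
        (F L (D * (R * B r * Rᵀ) * Dᵀ) (D * (R * B1 r * Rᵀ) * Dᵀ) p q) r
      rw [F_conj L hDDt hDtD (by rw [hdet R hR]; exact h0 r hr), F_conj L hR hR' (h0 r hr)]
      exact conj_deriv D Dᵀ (B := fun r => R * B1 r * Rᵀ)
        (fun p q => conj_deriv R Rᵀ (hB1 r hr) p q) p q)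
    hm (hfix _ hd) (hfix _ hd1) t ht
  have h2 : (R * B t * Rᵀ) i j = (D * (R * B t * Rᵀ) * Dᵀ) i j := by
    have := congrFun (congrFun key i) j
    exact this
  rw [hent] at h2
  have hdi : d i = 1 := by simp [hd_def]
  have hdj : d j = -1 := by simp [hd_def, Ne.symm hij]
  rw [hdi, hdj] at h2
  linarith

end Pool.Agent.S4Gen
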