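import Pool.Agent.S4Gen.Conj
import Pool.Agent.H8S4.Ein

set_option autoImplicit false

namespace Pool.Agent.S4Gen

open Set Matrix Pool.Agent.H8S4

variable {a h : Fin 3 → ℝ}

theorem inv_diag (ha : ∀ i, a i ≠ 0) : (diagonal a)⁻¹ = diagonal fun i => (a i)⁻¹ := by
  apply Matrix.inv_eq_right_inv
  rw [Matrix.diagonal_mul_diagonal]
  have : (fun i => a i * (a i)⁻¹) = fun _ => 1 := by
    funext i
    exact mul_inv_cancel₀ (ha i)
  rw [this]
  exact Matrix.diagonal_one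

/-- The entries of `NN`. -/
noncomputable def nd (a : Fin 3 → ℝ) (i : Fin 3) : ℝ := (a 0 * a 1 * a 2)⁻¹ * (a i * a i)

theorem smul_diag (c : ℝ) (v : Fin 3 → ℝ) : c • diagonal v = diagonal fun i => c * v i := by
  rw [← Matrix.diagonal_smul]
  rfl

theorem NN_diag (a : Fin 3 → ℝ) : NN (diagonal a) = diagonal (nd a) := by
  unfold NN nd
  rw [Matrix.diagonal_mul_diagonal, Matrix.det_diagonal, Fin.prod_univ_three, smul_diag]

/-- The entries of `Rc`. -/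
noncomputable def rd (a : Fin 3 → ℝ) (i : Fin 3) : ℝ :=
  nd a i * nd a i - 1 / 2 * (nd a 0 * nd a 0 + nd a 1 * nd a 1 + nd a 2 * nd a 2) +
    (a i)⁻¹ * (a i)⁻¹

theorem Rc_diag (ha : ∀ i, a i ≠ 0) : Rc (diagonal a) = diagonal (rd a) := by
  unfold Rc
  rw [NN_diag, inv_diag ha, Matrix.diagonal_mul_diagonal, Matrix.diagonal_mul_diagonal,
    ← Matrix.diagonal_one, smul_diag, Matrix.diagonal_sub, Matrix.diagonal_add,
    Matrix.trace_fin_three]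
  congr 1
  funext i
  simp only [Matrix.diagonal_apply_eq, rd, mul_one]

theorem F_diag (L : ℝ) (ha : ∀ i, a i ≠ 0) : F L (diagonal a) (diagonal h) =
    diagonal fun i => ((h i * (a i)⁻¹) * (h i * (a i)⁻¹) -
      (h 0 * (a 0)⁻¹ + h 1 * (a 1)⁻¹ + h 2 * (a 2)⁻¹) * (h i * (a i)⁻¹) + rd a i - L) * a i := by
  unfold F
  rw [Rc_diag ha, inv_diag ha, Matrix.diagonal_mul_diagonal, Matrix.diagonal_mul_diagonal,
    ← Matrix.diagonal_one, smul_diag, smul_diag, Matrix.diagonal_sub, Matrix.diagonal_add,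
    Matrix.diagonal_sub, Matrix.diagonal_mul_diagonal, Matrix.trace_fin_three]
  congr 1
  funext i
  simp only [Matrix.diagonal_apply_eq, mul_one]

theorem rd0 (ha : ∀ i, a i ≠ 0) : rd a 0 = (a 0 ^ 4 - (a 1 ^ 2 - a 2 ^ 2) ^ 2) /
    (2 * a 0 ^ 2 * a 1 ^ 2 * a 2 ^ 2) := by
  have h0 := ha 0
  have h1 := ha 1
  have h2 := ha 2
  unfold rd nd
  field_simp
  ring

theorem rd1 (ha : ∀ i, a i ≠ 0) : rd a 1 = (a 1 ^ 4 - (a 2 ^ 2 - a 0 ^ 2) ^ 2) /
    (2 * a 1 ^ 2 * a 2 ^ 2 * a 0 ^ 2) := by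
  have h0 := ha 0
  have h1 := ha 1
  have h2 := ha 2
  unfold rd nd
  field_simp
  ring

theorem rd2 (ha : ∀ i, a i ≠ 0) : rd a 2 = (a 2 ^ 4 - (a 0 ^ 2 - a 1 ^ 2) ^ 2) /
    (2 * a 2 ^ 2 * a 0 ^ 2 * a 1 ^ 2) := by
  have h0 := ha 0
  have h1 := ha 1
  have h2 := ha 2
  unfold rd nd
  field_simp
  ring

end Pool.Agent.S4Gen
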