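import Pool.Agent.S4Gen.Ode
import Pool.Agent.S4Gen.Dg
import Pool.Agent.S4Gen.Dia
import Pool.Agent.S4Nut.Main

set_option autoImplicit false

namespace Pool.Agent.S4Gen

open Set Matrix Filter Topology Pool.Agent.H8S4

theorem diag_of {X : Matrix (Fin 3) (Fin 3) ℝ} (h : ∀ i j, i ≠ j → X i j = 0) :
    X = diagonal fun i => X i i := by
  ext i j
  by_cases hij : i = j
  · subst hij
    rw [Matrix.diagonal_apply_eq]
  · rw [Matrix.diagonal_apply_ne _ hij, h i j hij]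

theorem conj_pos {R B : Matrix (Fin 3) (Fin 3) ℝ} (hR : R * Rᵀ = 1) (hB : B.PosDef) (i : Fin 3) :
    0 < (R * B * Rᵀ) i i := by
  have h1 : (R * B * Rᵀ) i i = star (R i) ⬝ᵥ (B *ᵥ (R i)) := by
    rw [mul_assoc, Matrix.mul_apply, star_trivial]
    rfl
  rw [h1]
  refine hB.dotProduct_mulVec_pos ?_
  intro h0
  have h2 := congrFun (congrFun hR i) i
  rw [Matrix.mul_apply, Matrix.one_apply_eq] at h2
  simp [h0] at h2

theorem main (B : ℝ → Matrix (Fin 3) (Fin 3) ℝ) (T L : ℝ) (hc : ClosesUp B T)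
    (hE : IsEinstein B T L) :
    ∃ ρ : ℝ, 0 < ρ ∧ L = 3 / ρ ^ 2 ∧ T = ρ * Real.pi ∧
      ∀ t ∈ Icc 0 T, B t = (ρ / 2 * Real.sin (t / ρ)) • (1 : Matrix (Fin 3) (Fin 3) ℝ) := by
  obtain ⟨hcomm, hode, hcon⟩ := einstein_ode hc hE
  have hS : ∀ t ∈ Ioo 0 T, (B t).IsSymm := fun t ht => symm_of_posDef (hc.pos t ht)
  have hdet : ∀ t ∈ Ioo 0 T, (B t).det ≠ 0 := fun t ht => (hc.pos t ht).det_pos.ne'
  have hev : ∀ t ∈ Ioo 0 T, ∀ᶠ r in 𝓝 t, r ∈ Ioo 0 T := fun t ht => isOpen_Ioo.mem_nhds ht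
  have hH : ∀ t ∈ Ioo 0 T, (md B t).IsSymm := fun t ht =>
    (hc.mdB t).symm ((hev t ht).mono fun r hr => hS r hr)
  obtain ⟨R, hR, hR', hoff⟩ := diag_sol hc.pos_T hdet hS hH hcomm (fun t _ => hc.mdB t)
    (fun t ht i j => by
      have h := hc.mdmdB t i j
      rw [hode t ht] at h
      exact h)
  set a : Fin 3 → ℝ → ℝ := fun i r => (R * B r * Rᵀ) i i with ha
  have hX : ∀ t, MD (fun r => R * B r * Rᵀ) (R * md B t * Rᵀ) t := fun t =>
    conj_deriv R Rᵀ (hc.mdB t)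
  have hX1 : ∀ t, MD (fun r => R * md B r * Rᵀ) (R * md (md B) t * Rᵀ) t := fun t =>
    conj_deriv R Rᵀ (hc.mdmdB t)
  have ha1 : ∀ i t, deriv (a i) t = (R * md B t * Rᵀ) i i := fun i t => (hX t i i).deriv
  have ha1' : ∀ i, deriv (a i) = fun t => (R * md B t * Rᵀ) i i := fun i => funext (ha1 i)
  have ha2 : ∀ i t, deriv (deriv (a i)) t = (R * md (md B) t * Rᵀ) i i := by
    intro i t
    rw [ha1']
    exact (hX1 t i i).deriv
  have hXd : ∀ t ∈ Ioo 0 T, R * B t * Rᵀ = diagonal fun i => a i t := fun t ht =>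
    diag_of (hoff t ht)
  have hXd1 : ∀ t ∈ Ioo 0 T, R * md B t * Rᵀ = diagonal fun i => deriv (a i) t := by
    intro t ht
    have h1 : ∀ i j, i ≠ j → (R * md B t * Rᵀ) i j = 0 := by
      intro i j hij
      have h2 : HasDerivAt (fun r => (R * B r * Rᵀ) i j) 0 t := by
        refine (hasDerivAt_const t (0 : ℝ)).congr_of_eventuallyEq ?_
        filter_upwards [hev t ht] with r hr
        exact hoff r hr i j hij
      exact (hX t i j).unique h2
    rw [diag_of h1]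
    congr 1
    funext i
    exact (ha1 i t).symm
  have hpos : ∀ i, ∀ t ∈ Ioo 0 T, 0 < a i t := fun i t ht => conj_pos hR (hc.pos t ht) i
  have hne : ∀ t ∈ Ioo 0 T, ∀ i, (fun i => a i t) i ≠ 0 := fun t ht i => (hpos i t ht).ne'
  have hsm : ∀ i, ContDiff ℝ 2 (a i) := by
    intro i
    have h := hc.smooth
    simp only [ha, Matrix.mul_apply]
    fun_prop
  have hF : ∀ t ∈ Ioo 0 T, ∀ i, deriv (deriv (a i)) t =
      ((deriv (a i) t * (a i t)⁻¹) * (deriv (a i) t * (a i t)⁻¹) -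
      (deriv (a 0) t * (a 0 t)⁻¹ + deriv (a 1) t * (a 1 t)⁻¹ + deriv (a 2) t * (a 2 t)⁻¹) *
        (deriv (a i) t * (a i t)⁻¹) + rd (fun i => a i t) i - L) * a i t := by
    intro t ht i
    rw [ha2, hode t ht, ← F_conj L hR hR' (hdet t ht), hXd t ht, hXd1 t ht, F_diag L (hne t ht),
      Matrix.diagonal_apply_eq]
  have q0 : ∀ t ∈ Ioo 0 T, EinA (a 0) (a 1) (a 2) L t := by
    intro t ht
    have h0 := hne t ht 0
    have h1 := hne t ht 1
    have h2 := hne t ht 2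
    simp only at h0 h1 h2
    unfold EinA rr
    rw [hF t ht 0, rd0 (hne t ht)]
    field_simp
    ring
  have q1 : ∀ t ∈ Ioo 0 T, EinA (a 1) (a 2) (a 0) L t := by
    intro t ht
    have h0 := hne t ht 0
    have h1 := hne t ht 1
    have h2 := hne t ht 2
    simp only at h0 h1 h2
    unfold EinA rr
    rw [hF t ht 1, rd1 (hne t ht)]
    field_simp
    ring
  have q2 : ∀ t ∈ Ioo 0 T, EinA (a 2) (a 0) (a 1) L t := by
    intro t ht
    have h0 := hne t ht 0
    have h1 := hne t ht 1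
    have h2 := hne t ht 2
    simp only at h0 h1 h2
    unfold EinA rr
    rw [hF t ht 2, rd2 (hne t ht)]
    field_simp
    ring
  have q3 : ∀ t ∈ Ioo 0 T, EinC (a 0) (a 1) (a 2) L t := by
    intro t ht
    have h0 := hne t ht 0
    have h1 := hne t ht 1
    have h2 := hne t ht 2
    simp only at h0 h1 h2
    have e := hcon t ht
    have e1 : (Rc (R * B t * Rᵀ)).trace = (Rc (B t)).trace := by
      rw [Rc_conj hR hR' (hdet t ht), conj_trace hR']
    have e2 : ((R * md B t * Rᵀ) * (R * B t * Rᵀ)⁻¹).trace = (md B t * (B t)⁻¹).trace := by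
      rw [W_conj hR hR' (hdet t ht), conj_trace hR']
    have e3 : (((R * md B t * Rᵀ) * (R * B t * Rᵀ)⁻¹) *
        ((R * md B t * Rᵀ) * (R * B t * Rᵀ)⁻¹)).trace =
        ((md B t * (B t)⁻¹) * (md B t * (B t)⁻¹)).trace := by
      rw [W_conj hR hR' (hdet t ht), conj_mul hR', conj_trace hR']
    rw [← e1, ← e2, ← e3, hXd t ht, hXd1 t ht, Rc_diag (hne t ht), inv_diag (hne t ht),
      Matrix.diagonal_mul_diagonal, Matrix.diagonal_mul_diagonal, Matrix.trace_fin_three,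
      Matrix.trace_fin_three, Matrix.trace_fin_three] at e
    simp only [Matrix.diagonal_apply_eq] at e
    rw [rd0 (hne t ht), rd1 (hne t ht), rd2 (hne t ht)] at e
    unfold EinC rr
    rw [← e]
    field_simp
    ring
  have hRR : ∀ i, (R * (1 : Matrix (Fin 3) (Fin 3) ℝ) * Rᵀ) i i = 1 := by
    intro i
    rw [mul_one, hR, Matrix.one_apply_eq]
  have l0 : ∀ i, a i 0 = 0 := by
    intro i
    simp only [ha, hc.left.1]
    simp
  have l1 : ∀ i, deriv (a i) 0 = 1 / 2 := by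
    intro i
    rw [ha1, hc.left.2, Matrix.mul_smul, Matrix.smul_mul, Matrix.smul_apply, hRR, smul_eq_mul,
      mul_one]
  have r0 : ∀ i, a i T = 0 := by
    intro i
    simp only [ha, hc.right.1]
    simp
  have r1 : ∀ i, deriv (a i) T = -(1 / 2) := by
    intro i
    rw [ha1, hc.right.2, Matrix.mul_smul, Matrix.smul_mul, Matrix.smul_apply, hRR, smul_eq_mul,
      mul_one]
  obtain ⟨ρ, h1, h2, h3, h4⟩ := (S4Nut.NData.mk (hsm 0) (hsm 1) (hsm 2) hc.pos_T
    (hpos 0) (hpos 1) (hpos 2) q0 q1 q2 q3 (l0 0) (l0 1) (l0 2) (l1 0) (l1 1) (l1 2)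
    (r0 0) (r0 1) (r0 2) (r1 0) (r1 1) (r1 2)).solve
  refine ⟨ρ, h1, h2, h3, fun t ht => ?_⟩
  have hfin : ∀ i, a i t = ρ / 2 * Real.sin (t / ρ) := by
    obtain ⟨g0, g1, g2⟩ := h4 t ht
    intro i
    fin_cases i
    exacts [g0, g1, g2]
  have hdiag : R * B t * Rᵀ = diagonal fun i => a i t := by
    rcases eq_or_ne t 0 with rfl | ht0
    · rw [hc.left.1]
      simp only [l0]
      simp
    rcases eq_or_ne t T with rfl | htT
    · rw [hc.right.1]
      simp only [r0]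
      simp
    exact hXd t ⟨lt_of_le_of_ne ht.1 (Ne.symm ht0), lt_of_le_of_ne ht.2 htT⟩
  have hsc : R * B t * Rᵀ = (ρ / 2 * Real.sin (t / ρ)) • (1 : Matrix (Fin 3) (Fin 3) ℝ) := by
    rw [hdiag, ← Matrix.diagonal_one, smul_diag]
    congr 1
    funext i
    rw [hfin, mul_one]
  calc B t = Rᵀ * (R * B t * Rᵀ) * R := by
        rw [mul_assoc R, ← mul_assoc Rᵀ R, hR', one_mul, mul_assoc, hR', mul_one]
    _ = (ρ / 2 * Real.sin (t / ρ)) • (1 : Matrix (Fin 3) (Fin 3) ℝ) := by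
        rw [hsc, Matrix.mul_smul, mul_one, Matrix.smul_mul, hR']

end Pool.Agent.S4Gen
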