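import Pool.Agent.S4Gen.Brk
import Pool.Agent.S4Gen.C

set_option autoImplicit false

namespace Pool.Agent.S4Gen

open Set Matrix Filter Topology Pool.Agent.H8S4

theorem ClosesUp.mdB {B : ℝ → Matrix (Fin 3) (Fin 3) ℝ} {T : ℝ} (h : ClosesUp B T) (t : ℝ) :
    MD B (md B t) t := fun i j =>
  (((h.smooth i j).differentiable (by norm_num)) t).hasDerivAt

theorem ClosesUp.mdmdB {B : ℝ → Matrix (Fin 3) (Fin 3) ℝ} {T : ℝ} (h : ClosesUp B T) (t : ℝ) :
    MD (md B) (md (md B) t) t := fun i j =>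
  ((((h.smooth i j).deriv' : ContDiff ℝ 1 (deriv fun r => B r i j)).differentiable (by norm_num))
    t).hasDerivAt

theorem symm_of_posDef {A : Matrix (Fin 3) (Fin 3) ℝ} (h : A.PosDef) : A.IsSymm := by
  have h1 := h.isHermitian
  rw [Matrix.IsHermitian, Matrix.conjTranspose_eq_transpose_of_trivial] at h1
  exact h1

theorem NN_symm {A : Matrix (Fin 3) (Fin 3) ℝ} (h : A.IsSymm) : (NN A).IsSymm := by
  unfold NN Matrix.IsSymm
  rw [Matrix.transpose_smul, Matrix.transpose_mul, h.eq]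

theorem adj_NN {A : Matrix (Fin 3) (Fin 3) ℝ} (h0 : A.det ≠ 0) : (NN A).adjugate = A⁻¹ * A⁻¹ := by
  unfold NN
  rw [Matrix.adjugate_smul, Matrix.adjugate_mul_distrib, Matrix.inv_def, Ring.inverse_eq_inv',
    Matrix.smul_mul, Matrix.mul_smul, smul_smul, Fintype.card_fin]
  congr 1
  norm_num [pow_two]

theorem MD.NN {B : ℝ → Matrix (Fin 3) (Fin 3) ℝ} {H : Matrix (Fin 3) (Fin 3) ℝ} {t : ℝ}
    (hB : MD B H t) (h0 : (B t).det ≠ 0) : ∃ N1, MD (fun r => NN (B r)) N1 t :=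
  ⟨_, MD.smul (hB.diff_det.inv h0).hasDerivAt (hB.mul hB)⟩

/-- An Einstein metric solves the second order equation and the two constraints. -/
theorem einstein_ode {B : ℝ → Matrix (Fin 3) (Fin 3) ℝ} {T L : ℝ} (hc : ClosesUp B T)
    (hE : IsEinstein B T L) :
    (∀ t ∈ Ioo 0 T, B t * md B t = md B t * B t) ∧
    (∀ t ∈ Ioo 0 T, md (md B) t = F L (B t) (md B t)) ∧
    ∀ t ∈ Ioo 0 T, (Rc (B t)).trace - (md B t * (B t)⁻¹).trace ^ 2 +
      ((md B t * (B t)⁻¹) * (md B t * (B t)⁻¹)).trace = 2 * L := by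
  have hS : ∀ t ∈ Ioo 0 T, (B t).IsSymm := fun t ht => symm_of_posDef (hc.pos t ht)
  have hdet : ∀ t ∈ Ioo 0 T, (B t).det ≠ 0 := fun t ht => (hc.pos t ht).det_pos.ne'
  have hev : ∀ t ∈ Ioo 0 T, ∀ᶠ r in 𝓝 t, r ∈ Ioo 0 T := fun t ht => isOpen_Ioo.mem_nhds ht
  have hH : ∀ t ∈ Ioo 0 T, (md B t).IsSymm := fun t ht =>
    (hc.mdB t).symm ((hev t ht).mono fun r hr => hS r hr)
  have hbrk : ∀ t ∈ Ioo 0 T, ∀ᶠ r in 𝓝 t, brk B r = cW (md B r * (B r)⁻¹) (NN (B r)) :=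
    fun t ht => (hev t ht).mono fun r hr => brk_eq (hc.mdB r) (hS r hr) (hdet r hr)
  have hW : ∀ t ∈ Ioo 0 T, MD (fun r => md B r * (B r)⁻¹) (md (md B) t * (B t)⁻¹ +
      md B t * (-((B t)⁻¹ * md B t * (B t)⁻¹))) t := fun t ht =>
    (hc.mdmdB t).mul ((hc.mdB t).inv (hdet t ht))
  have hcomm : ∀ t ∈ Ioo 0 T, B t * md B t = md B t * B t := by
    intro t ht
    obtain ⟨N1, hN1⟩ := (hc.mdB t).NN (hdet t ht)
    have hr := ric_eq (hbrk t ht) (hW t ht) hN1
    have h1 := comm_of_R0 (NN_symm (hS t ht))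
      (hN1.symm ((hev t ht).mono fun r hr => NN_symm (hS r hr)))
      (fun k => (hr none (some k)).symm.trans ((hE t ht none (some k)).trans (if_neg (by simp))))
    have hWT : (md B t * (B t)⁻¹)ᵀ = (B t)⁻¹ * md B t := by
      rw [Matrix.transpose_mul, (hH t ht).eq, Matrix.transpose_nonsing_inv, (hS t ht).eq]
    rw [hWT] at h1
    refine commute_of (hc.pos t ht) (hH t ht) ?_
    unfold NN at h1
    rw [Matrix.mul_smul, Matrix.smul_mul] at h1
    have hne : ((B t).det)⁻¹ ≠ 0 := inv_ne_zero (hdet t ht)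
    exact smul_right_injective _ hne h1
  have hinv : ∀ t ∈ Ioo 0 T, (B t)⁻¹ * md B t = md B t * (B t)⁻¹ := by
    intro t ht
    have hu : IsUnit (B t).det := isUnit_iff_ne_zero.2 (hdet t ht)
    calc (B t)⁻¹ * md B t = (B t)⁻¹ * (md B t * B t) * (B t)⁻¹ := by
          rw [mul_assoc, mul_assoc, Matrix.mul_nonsing_inv _ hu, mul_one]
      _ = md B t * (B t)⁻¹ := by
          rw [← hcomm t ht, ← mul_assoc, Matrix.nonsing_inv_mul _ hu, one_mul]
  have hWs : ∀ t ∈ Ioo 0 T, (md B t * (B t)⁻¹).IsSymm := by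
    intro t ht
    show (md B t * (B t)⁻¹)ᵀ = _
    rw [Matrix.transpose_mul, (hH t ht).eq, Matrix.transpose_nonsing_inv, (hS t ht).eq, hinv t ht]
  have main : ∀ t ∈ Ioo 0 T, ∃ W1 : Matrix (Fin 3) (Fin 3) ℝ,
      md (md B) t * (B t)⁻¹ = W1 + (md B t * (B t)⁻¹) * (md B t * (B t)⁻¹) ∧
      -W1 - (md B t * (B t)⁻¹).trace • (md B t * (B t)⁻¹) + Rc (B t) =
        L • (1 : Matrix (Fin 3) (Fin 3) ℝ) ∧
      -W1.trace - ((md B t * (B t)⁻¹) * (md B t * (B t)⁻¹)).trace = L := by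
    intro t ht
    obtain ⟨N1, hN1⟩ := (hc.mdB t).NN (hdet t ht)
    have hr := ric_eq (hbrk t ht) (hW t ht) hN1
    have hW1s := (hW t ht).symm ((hev t ht).mono fun r hr => hWs r hr)
    refine ⟨md (md B) t * (B t)⁻¹ + md B t * (-((B t)⁻¹ * md B t * (B t)⁻¹)), ?_, ?_, ?_⟩
    · rw [mul_neg, ← mul_assoc, ← mul_assoc, ← mul_assoc]
      abel
    · ext i j
      have h1 := (hr (some i) (some j)).symm.trans (hE t ht (some i) (some j))
      rw [R0_ss (hWs t ht) (NN_symm (hS t ht)) hW1s, adj_NN (hdet t ht)] at h1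
      unfold Rc
      rw [h1, Matrix.smul_apply, Matrix.one_apply]
      by_cases hij : i = j
      · simp [hij]
      · simp [hij]
    · have h1 := (hr none none).symm.trans (hE t ht none none)
      rw [R0_nn, if_pos rfl, (hWs t ht).eq, ← two_smul ℝ, smul_smul,
        show (1 / 2 * 2 : ℝ) = 1 by norm_num, one_smul] at h1
      exact h1
  refine ⟨hcomm, ?_, ?_⟩
  · intro t ht
    obtain ⟨W1, e1, e2, -⟩ := main t ht
    have hu : IsUnit (B t).det := isUnit_iff_ne_zero.2 (hdet t ht)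
    have e3 : md (md B) t = md (md B) t * (B t)⁻¹ * B t := by
      rw [mul_assoc, Matrix.nonsing_inv_mul _ hu, mul_one]
    rw [e3, e1]
    unfold F
    congr 1
    rw [← e2]
    abel
  · intro t ht
    obtain ⟨W1, -, e2, e3⟩ := main t ht
    have e4 := congrArg Matrix.trace e2
    rw [Matrix.trace_add, Matrix.trace_sub, Matrix.trace_neg, Matrix.trace_smul, Matrix.trace_smul,
      Matrix.trace_one, smul_eq_mul, smul_eq_mul, Fintype.card_fin] at e4
    push_cast at e4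
    linarith

end Pool.Agent.S4Gen
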