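import Pool.Agent.S4Gen.Def

set_option autoImplicit false

namespace Pool.Agent.S4Gen

open Set Matrix Filter Topology Pool.Agent.H8S4

/-- The brackets in terms of `W = B' B⁻¹` and `N = B^2 / det B`. -/
def cW (W N : Matrix (Fin 3) (Fin 3) ℝ) :
    Option (Fin 3) → Option (Fin 3) → Option (Fin 3) → ℝ
  | none, some j, some k => -W k j
  | some i, none, some k => W k i
  | some i, some j, some k => ∑ m, eps i j m * N m k
  | _, _, _ => 0

/-- Koszul formula with constant coefficients. -/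
noncomputable def g0 (c : Option (Fin 3) → Option (Fin 3) → Option (Fin 3) → ℝ)
    (i j k : Option (Fin 3)) : ℝ :=
  (c i j k - c j k i + c k i j) / 2

/-- `x` if `i` is the direction `d/dt`. -/
def d0 (i : Option (Fin 3)) (x : ℝ) : ℝ :=
  match i with
  | none => x
  | some _ => 0

/-- Ricci curvature from the brackets `c` and their derivatives `c1`. -/
noncomputable def R0 (c c1 : Option (Fin 3) → Option (Fin 3) → Option (Fin 3) → ℝ)
    (j k : Option (Fin 3)) : ℝ :=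
  ∑ i, (d0 i (g0 c1 j k i) - d0 j (g0 c1 i k i) +
    ∑ m, (g0 c j k m * g0 c i m i - g0 c i k m * g0 c j m i - c i j m * g0 c m k i))

theorem hasDerivAt_cW {W N : ℝ → Matrix (Fin 3) (Fin 3) ℝ} {W1 N1 : Matrix (Fin 3) (Fin 3) ℝ}
    {t : ℝ} (hW : ∀ i j, HasDerivAt (fun r => W r i j) (W1 i j) t)
    (hN : ∀ i j, HasDerivAt (fun r => N r i j) (N1 i j) t) (i j k : Option (Fin 3)) :
    HasDerivAt (fun r => cW (W r) (N r) i j k) (cW W1 N1 i j k) t := by
  rcases i with _ | i <;> rcases j with _ | j <;> rcases k with _ | k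
  · exact hasDerivAt_const _ _
  · exact hasDerivAt_const _ _
  · exact hasDerivAt_const _ _
  · exact (hW k j).neg
  · exact hasDerivAt_const _ _
  · exact hW k i
  · exact hasDerivAt_const _ _
  · exact HasDerivAt.fun_sum fun m _ => (hN m k).const_mul (eps i j m)

theorem ric_eq {c : ℝ → Option (Fin 3) → Option (Fin 3) → Option (Fin 3) → ℝ}
    {W N : ℝ → Matrix (Fin 3) (Fin 3) ℝ} {W1 N1 : Matrix (Fin 3) (Fin 3) ℝ} {t : ℝ}
    (hc : ∀ᶠ r in 𝓝 t, c r = cW (W r) (N r))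
    (hW : ∀ i j, HasDerivAt (fun r => W r i j) (W1 i j) t)
    (hN : ∀ i j, HasDerivAt (fun r => N r i j) (N1 i j) t) (j k : Option (Fin 3)) :
    Ric c t j k = R0 (cW (W t) (N t)) (cW W1 N1) j k := by
  have hg : ∀ i j k, HasDerivAt (fun r => Gam c r i j k) (g0 (cW W1 N1) i j k) t := by
    intro i j k
    have h1 := (((hasDerivAt_cW hW hN i j k).sub (hasDerivAt_cW hW hN j k i)).add
      (hasDerivAt_cW hW hN k i j)).div_const 2
    refine (h1.congr_of_eventuallyEq ?_)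
    filter_upwards [hc] with r hr
    simp only [Gam, hr]
    rfl
  have hd : ∀ i j k l, dd i (fun r => Gam c r j k l) t = d0 i (g0 (cW W1 N1) j k l) := by
    intro i j k l
    rcases i with _ | i
    · exact (hg j k l).deriv
    · rfl
  have ht : c t = cW (W t) (N t) := hc.self_of_nhds
  have h0 : ∀ i j k, Gam c t i j k = g0 (cW (W t) (N t)) i j k := by
    intro i j k
    simp only [Gam, g0, ht]
  unfold Ric R0 Riem
  simp only [hd, h0, ht]

theorem symm_entries {N : Matrix (Fin 3) (Fin 3) ℝ} (h : N.IsSymm) :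
    N 1 0 = N 0 1 ∧ N 2 0 = N 0 2 ∧ N 2 1 = N 1 2 :=
  ⟨h.apply 0 1, h.apply 0 2, h.apply 1 2⟩

theorem R0_nn (W N W1 N1 : Matrix (Fin 3) (Fin 3) ℝ) :
    R0 (cW W N) (cW W1 N1) none none = -W1.trace - ((((1 / 2 : ℝ) • (W + Wᵀ)) *
      ((1 / 2 : ℝ) • (W + Wᵀ))).trace) := by
  simp only [R0, Fintype.sum_option, Fin.sum_univ_three, g0, cW, d0]
  rw [Matrix.trace_fin_three, Matrix.trace_fin_three]
  simp only [Matrix.mul_apply, Fin.sum_univ_three,
    Matrix.smul_apply, Matrix.add_apply, Matrix.transpose_apply, smul_eq_mul]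
  simp [eps]
  ring

theorem R0_ns0 {W N W1 N1 : Matrix (Fin 3) (Fin 3) ℝ} (hN : N.IsSymm) (hN1 : N1.IsSymm) :
    R0 (cW W N) (cW W1 N1) none (some 0) =
      (((1 / 2 : ℝ) • (W + Wᵀ)) * N) 1 2 - (((1 / 2 : ℝ) • (W + Wᵀ)) * N) 2 1 := by
  obtain ⟨a1, a2, a3⟩ := symm_entries hN
  obtain ⟨b1, b2, b3⟩ := symm_entries hN1
  simp only [R0, Fintype.sum_option, Fin.sum_univ_three, g0, cW, d0]
  simp only [Matrix.mul_apply, Fin.sum_univ_three,
    Matrix.smul_apply, Matrix.add_apply, Matrix.transpose_apply, smul_eq_mul]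
  simp [eps]
  rw [a1, a2, a3, b3]
  ring

theorem R0_ns1 {W N W1 N1 : Matrix (Fin 3) (Fin 3) ℝ} (hN : N.IsSymm) (hN1 : N1.IsSymm) :
    R0 (cW W N) (cW W1 N1) none (some 1) =
      (((1 / 2 : ℝ) • (W + Wᵀ)) * N) 2 0 - (((1 / 2 : ℝ) • (W + Wᵀ)) * N) 0 2 := by
  obtain ⟨a1, a2, a3⟩ := symm_entries hN
  obtain ⟨b1, b2, b3⟩ := symm_entries hN1
  simp only [R0, Fintype.sum_option, Fin.sum_univ_three, g0, cW, d0]
  simp only [Matrix.mul_apply, Fin.sum_univ_three,
    Matrix.smul_apply, Matrix.add_apply, Matrix.transpose_apply, smul_eq_mul]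
  simp [eps]
  rw [a1, a2, a3, b2]
  ring

theorem R0_ns2 {W N W1 N1 : Matrix (Fin 3) (Fin 3) ℝ} (hN : N.IsSymm) (hN1 : N1.IsSymm) :
    R0 (cW W N) (cW W1 N1) none (some 2) =
      (((1 / 2 : ℝ) • (W + Wᵀ)) * N) 0 1 - (((1 / 2 : ℝ) • (W + Wᵀ)) * N) 1 0 := by
  obtain ⟨a1, a2, a3⟩ := symm_entries hN
  obtain ⟨b1, b2, b3⟩ := symm_entries hN1
  simp only [R0, Fintype.sum_option, Fin.sum_univ_three, g0, cW, d0]
  simp only [Matrix.mul_apply, Fin.sum_univ_three,
    Matrix.smul_apply, Matrix.add_apply, Matrix.transpose_apply, smul_eq_mul]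
  simp [eps]
  rw [a1, a2, a3, b1]
  ring

/-- The momentum constraint. -/
theorem comm_of_R0 {W N W1 N1 : Matrix (Fin 3) (Fin 3) ℝ} (hN : N.IsSymm) (hN1 : N1.IsSymm)
    (h : ∀ k : Fin 3, R0 (cW W N) (cW W1 N1) none (some k) = 0) :
    (W + Wᵀ) * N = N * (W + Wᵀ) := by
  have h0 := h 0
  have h1 := h 1
  have h2 := h 2
  rw [R0_ns0 hN hN1] at h0
  rw [R0_ns1 hN hN1] at h1
  rw [R0_ns2 hN hN1] at h2
  rw [Matrix.smul_mul, Matrix.smul_apply, Matrix.smul_apply, smul_eq_mul, smul_eq_mul] at h0 h1 h2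
  have hT : N * (W + Wᵀ) = ((W + Wᵀ) * N)ᵀ := by
    rw [Matrix.transpose_mul, Matrix.transpose_add, Matrix.transpose_transpose, hN.eq,
      add_comm Wᵀ W]
  rw [hT]
  ext i j
  rw [Matrix.transpose_apply]
  generalize (W + Wᵀ) * N = Z at *
  fin_cases i <;> fin_cases j <;> simp only [Fin.zero_eta, Fin.mk_one, Fin.reduceFinMk] <;> linarith

theorem R0_ss {W N W1 N1 : Matrix (Fin 3) (Fin 3) ℝ} (hW : W.IsSymm) (hN : N.IsSymm)
    (hW1 : W1.IsSymm) (i j : Fin 3) :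
    R0 (cW W N) (cW W1 N1) (some i) (some j) =
      (-W1 - W.trace • W + (N * N - (1 / 2 * (N * N).trace) • (1 : Matrix (Fin 3) (Fin 3) ℝ) +
        N.adjugate)) i j := by
  obtain ⟨a1, a2, a3⟩ := symm_entries hN
  obtain ⟨b1, b2, b3⟩ := symm_entries hW
  obtain ⟨c1, c2, c3⟩ := symm_entries hW1
  simp only [R0, Fintype.sum_option, Fin.sum_univ_three, g0, cW, d0]
  rw [Matrix.trace_fin_three, Matrix.trace_fin_three, Matrix.adjugate_fin_three]
  simp only [Matrix.mul_apply, Fin.sum_univ_three, Matrix.sub_apply, Matrix.neg_apply,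
    Matrix.smul_apply, Matrix.add_apply, Matrix.transpose_apply, smul_eq_mul, Matrix.one_apply]
  fin_cases i <;> fin_cases j <;> simp [eps] <;> simp only [a1, a2, a3, b1, b2, b3, c1, c2, c3] <;>
    ring

end Pool.Agent.S4Gen
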