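import Pool.Agent.S4Gen.Def

set_option autoImplicit false

/-!
# Uniqueness for the second order matrix equation (package U)
-/

namespace Pool.Agent.S4Gen

open Set Matrix Pool.Agent.H8S4 Filter Topology

/-- the phase space -/
abbrev PS : Type := (Fin 3 → Fin 3 → ℝ) × (Fin 3 → Fin 3 → ℝ)

/-- a matrix valued function all whose entries are `C^1` at a point -/
def SM (M : PS → Matrix (Fin 3) (Fin 3) ℝ) (p : PS) : Prop :=
  ∀ i j, ContDiffAt ℝ 1 (fun e => M e i j) p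

theorem SM.mul {M N : PS → Matrix (Fin 3) (Fin 3) ℝ} {p : PS} (hM : SM M p) (hN : SM N p) :
    SM (fun e => M e * N e) p := by
  intro i j
  simp only [Matrix.mul_apply]
  exact ContDiffAt.sum fun k _ => (hM i k).mul (hN k j)

theorem SM.add {M N : PS → Matrix (Fin 3) (Fin 3) ℝ} {p : PS} (hM : SM M p) (hN : SM N p) :
    SM (fun e => M e + N e) p := by
  intro i j
  simp only [Matrix.add_apply]
  exact (hM i j).add (hN i j)

theorem SM.sub {M N : PS → Matrix (Fin 3) (Fin 3) ℝ} {p : PS} (hM : SM M p) (hN : SM N p) :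
    SM (fun e => M e - N e) p := by
  intro i j
  simp only [Matrix.sub_apply]
  exact (hM i j).sub (hN i j)

theorem SM.smul {c : PS → ℝ} {M : PS → Matrix (Fin 3) (Fin 3) ℝ} {p : PS}
    (hc : ContDiffAt ℝ 1 c p) (hM : SM M p) : SM (fun e => c e • M e) p := by
  intro i j
  simp only [Matrix.smul_apply, smul_eq_mul]
  exact hc.mul (hM i j)

theorem SM.const (A : Matrix (Fin 3) (Fin 3) ℝ) (p : PS) : SM (fun _ => A) p :=
  fun _ _ => contDiffAt_const

theorem SM.trace {M : PS → Matrix (Fin 3) (Fin 3) ℝ} {p : PS} (hM : SM M p) :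
    ContDiffAt ℝ 1 (fun e => (M e).trace) p := by
  simp only [Matrix.trace, Matrix.diag_apply]
  exact ContDiffAt.sum fun k _ => hM k k

theorem SM.fst (p : PS) : SM (fun e => Matrix.of e.1) p := by
  intro i j
  have h : ContDiff ℝ 1 fun e : PS => e.1 i j := by fun_prop
  exact h.contDiffAt

theorem SM.snd (p : PS) : SM (fun e => Matrix.of e.2) p := by
  intro i j
  have h : ContDiff ℝ 1 fun e : PS => e.2 i j := by fun_prop
  exact h.contDiffAt

theorem SM.det {M : PS → Matrix (Fin 3) (Fin 3) ℝ} {p : PS} (hM : SM M p) :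
    ContDiffAt ℝ 1 (fun e => (M e).det) p := by
  simp only [Matrix.det_fin_three]
  exact (((((((hM 0 0).mul (hM 1 1)).mul (hM 2 2)).sub (((hM 0 0).mul (hM 1 2)).mul (hM 2 1))).sub
    (((hM 0 1).mul (hM 1 0)).mul (hM 2 2))).add (((hM 0 1).mul (hM 1 2)).mul (hM 2 0))).add
    (((hM 0 2).mul (hM 1 0)).mul (hM 2 1))).sub (((hM 0 2).mul (hM 1 1)).mul (hM 2 0))

theorem SM.inv {M : PS → Matrix (Fin 3) (Fin 3) ℝ} {p : PS} (hM : SM M p) (h0 : (M p).det ≠ 0) :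
    SM (fun e => (M e)⁻¹) p := by
  have h1 : (fun e => (M e)⁻¹) = fun e => (M e).det⁻¹ • (M e).adjugate := by
    funext e
    rw [Matrix.inv_def, Ring.inverse_eq_inv']
  rw [h1]
  refine SM.smul (hM.det.inv h0) ?_
  intro i j
  simp only [Matrix.adjugate_fin_three]
  fin_cases i <;> fin_cases j
  · exact ((hM 1 1).mul (hM 2 2)).sub ((hM 1 2).mul (hM 2 1))
  · exact ((hM 0 1).mul (hM 2 2)).neg.add ((hM 0 2).mul (hM 2 1))
  · exact ((hM 0 1).mul (hM 1 2)).sub ((hM 0 2).mul (hM 1 1))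
  · exact ((hM 1 0).mul (hM 2 2)).neg.add ((hM 1 2).mul (hM 2 0))
  · exact ((hM 0 0).mul (hM 2 2)).sub ((hM 0 2).mul (hM 2 0))
  · exact ((hM 0 0).mul (hM 1 2)).neg.add ((hM 0 2).mul (hM 1 0))
  · exact ((hM 1 0).mul (hM 2 1)).sub ((hM 1 1).mul (hM 2 0))
  · exact ((hM 0 0).mul (hM 2 1)).neg.add ((hM 0 1).mul (hM 2 0))
  · exact ((hM 0 0).mul (hM 1 1)).sub ((hM 0 1).mul (hM 1 0))

theorem SM.F (L : ℝ) {p : PS} (h0 : (Matrix.of p.1).det ≠ 0) :
    SM (fun e => F L (Matrix.of e.1) (Matrix.of e.2)) p := by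
  have hB := SM.fst p
  have hH := SM.snd p
  have hI : SM (fun e => (Matrix.of e.1)⁻¹) p := hB.inv h0
  have hA := hH.mul hI
  have hN : SM (fun e => NN (Matrix.of e.1)) p := SM.smul (hB.det.inv h0) (hB.mul hB)
  have hNN := hN.mul hN
  have hR : SM (fun e => Rc (Matrix.of e.1)) p :=
    (hNN.sub (SM.smul (contDiffAt_const.mul hNN.trace) (SM.const 1 p))).add (hI.mul hI)
  exact ((((hA.mul hA).sub (SM.smul hA.trace hA)).add hR).sub (SM.const _ p)).mul hB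

/-- the vector field -/
noncomputable def vf (L : ℝ) (e : PS) : PS :=
  (e.2, fun i j => F L (Matrix.of e.1) (Matrix.of e.2) i j)

theorem vf_contDiffAt (L : ℝ) {p : PS} (h0 : (Matrix.of p.1).det ≠ 0) :
    ContDiffAt ℝ 1 (vf L) p := by
  refine ContDiffAt.prodMk contDiffAt_snd ?_
  exact contDiffAt_pi.2 fun i => contDiffAt_pi.2 fun j => SM.F L h0 i j

/-- the curve in the phase space -/
def crv (X X1 : ℝ → Matrix (Fin 3) (Fin 3) ℝ) (t : ℝ) : PS :=
  (fun i j => X t i j, fun i j => X1 t i j)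

theorem crv_hasDerivAt {L t : ℝ} {X X1 : ℝ → Matrix (Fin 3) (Fin 3) ℝ}
    (hX : ∀ i j, HasDerivAt (fun r => X r i j) (X1 t i j) t)
    (hX1 : ∀ i j, HasDerivAt (fun r => X1 r i j) (F L (X t) (X1 t) i j) t) :
    HasDerivAt (crv X X1) (vf L (crv X X1 t)) t := by
  refine HasDerivAt.prodMk ?_ ?_
  · exact hasDerivAt_pi.2 fun i => hasDerivAt_pi.2 fun j => hX i j
  · exact hasDerivAt_pi.2 fun i => hasDerivAt_pi.2 fun j => hX1 i j

theorem crv_unique {L t : ℝ} {f g : ℝ → PS} (h0 : (Matrix.of (f t).1).det ≠ 0)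
    (hf : ∀ᶠ s in 𝓝 t, HasDerivAt f (vf L (f s)) s)
    (hg : ∀ᶠ s in 𝓝 t, HasDerivAt g (vf L (g s)) s) (h : f t = g t) : f =ᶠ[𝓝 t] g := by
  obtain ⟨K, s, hs, hK⟩ := (vf_contDiffAt L h0).exists_lipschitzOnWith
  have hfc : ContinuousAt f t := hf.self_of_nhds.continuousAt
  have hgc : ContinuousAt g t := hg.self_of_nhds.continuousAt
  have hs' : s ∈ 𝓝 (g t) := h ▸ hs
  refine ODE_solution_unique_of_eventually (v := fun _ => vf L) (s := fun _ => s) (K := K)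
    (Eventually.of_forall fun _ => hK) ?_ ?_ h
  · filter_upwards [hf, hfc.eventually_mem hs] with r h1 h2
    exact ⟨h1, h2⟩
  · filter_upwards [hg, hgc.eventually_mem hs'] with r h1 h2
    exact ⟨h1, h2⟩

/-- The solution on `(0,T)` of `X'' = F X X'` with invertible values is determined by its data at
one time. -/
theorem unique_sol {T L : ℝ} {X X1 Y Y1 : ℝ → Matrix (Fin 3) (Fin 3) ℝ}
    (hX0 : ∀ t ∈ Ioo 0 T, (X t).det ≠ 0)
    (hX : ∀ t ∈ Ioo 0 T, ∀ i j, HasDerivAt (fun r => X r i j) (X1 t i j) t)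
    (hX1 : ∀ t ∈ Ioo 0 T, ∀ i j, HasDerivAt (fun r => X1 r i j) (F L (X t) (X1 t) i j) t)
    (hY0 : ∀ t ∈ Ioo 0 T, (Y t).det ≠ 0)
    (hY : ∀ t ∈ Ioo 0 T, ∀ i j, HasDerivAt (fun r => Y r i j) (Y1 t i j) t)
    (hY1 : ∀ t ∈ Ioo 0 T, ∀ i j, HasDerivAt (fun r => Y1 r i j) (F L (Y t) (Y1 t) i j) t)
    {s : ℝ} (hs : s ∈ Ioo 0 T) (h0 : X s = Y s) (h1 : X1 s = Y1 s) :
    ∀ t ∈ Ioo 0 T, X t = Y t := by
  have hf : ∀ t ∈ Ioo 0 T, HasDerivAt (crv X X1) (vf L (crv X X1 t)) t :=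
    fun t ht => crv_hasDerivAt (hX t ht) (hX1 t ht)
  have hg : ∀ t ∈ Ioo 0 T, HasDerivAt (crv Y Y1) (vf L (crv Y Y1 t)) t :=
    fun t ht => crv_hasDerivAt (hY t ht) (hY1 t ht)
  have hloc : ∀ t ∈ Ioo 0 T, crv X X1 t = crv Y Y1 t → crv X X1 =ᶠ[𝓝 t] crv Y Y1 := by
    intro t ht h
    have hnb : Ioo 0 T ∈ 𝓝 t := Ioo_mem_nhds ht.1 ht.2
    refine crv_unique (L := L) (hX0 t ht) ?_ ?_ h
    · filter_upwards [hnb] with r hr using hf r hr
    · filter_upwards [hnb] with r hr using hg r hr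
  have hU : IsOpen {t | crv X X1 =ᶠ[𝓝 t] crv Y Y1} := isOpen_setOfPred_eventually_nhds
  have hV : IsOpen (Ioo 0 T ∩ {t | crv X X1 t ≠ crv Y Y1 t}) := by
    rw [isOpen_iff_mem_nhds]
    rintro t ⟨ht, hne⟩
    have hnb : Ioo 0 T ∈ 𝓝 t := Ioo_mem_nhds ht.1 ht.2
    have h2 := ((hf t ht).continuousAt.sub (hg t ht).continuousAt).eventually_ne
      (sub_ne_zero.2 hne)
    filter_upwards [hnb, h2] with r h3 h4 using ⟨h3, sub_ne_zero.1 h4⟩
  have hsub : Ioo 0 T ⊆ {t | crv X X1 =ᶠ[𝓝 t] crv Y Y1} :=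
    isPreconnected_Ioo.subset_left_of_subset_union hU hV (by
      rw [Set.disjoint_left]
      rintro t h2 ⟨_, h3⟩
      exact h3 h2.self_of_nhds) (by
      intro t ht
      by_cases h2 : crv X X1 t = crv Y Y1 t
      · exact Or.inl (hloc t ht h2)
      · exact Or.inr ⟨ht, h2⟩) ⟨s, hs, hloc s hs (by
        show (fun i j => X s i j, fun i j => X1 s i j) = (fun i j => Y s i j, fun i j => Y1 s i j)
        rw [h0, h1])⟩
  intro t ht
  have h2 : crv X X1 t = crv Y Y1 t := (hsub ht).self_of_nhds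
  ext i j
  exact congrFun (congrFun (congrArg Prod.fst h2) i) j

end Pool.Agent.S4Gen
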